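import Pool.Agent.Q61.ND.Stm

/-! Job FUN of the project ND. -/

set_option autoImplicit false

open MeasureTheory Set Filter Topology Real

noncomputable section

namespace Pool.Agent.Q110.ND

open Pool.Agent.Q61.AD (P Q Per dt dx dy lap Tst D)
open Pool.Agent.Q61.ND

/-- smooth -/
abbrev Sm (f : P → ℝ) : Prop := ContDiff ℝ (⊤ : ℕ∞) f

theorem hdx {f : P → ℝ} (hf : Sm f) (x : P) :
    HasDerivAt (fun s : ℝ => f (s, x.2)) (fderiv ℝ f x (1, 0)) x.1 := by
  have h1 : HasFDerivAt f (fderiv ℝ f x) x := (hf.differentiable (by simp) x).hasFDerivAt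
  have h2 : HasDerivAt (fun s : ℝ => ((s, x.2) : P)) (1, 0) x.1 :=
    (hasDerivAt_id x.1).prodMk (hasDerivAt_const x.1 x.2)
  exact h1.comp_hasDerivAt x.1 h2

theorem hdy {f : P → ℝ} (hf : Sm f) (x : P) :
    HasDerivAt (fun s : ℝ => f (x.1, s)) (fderiv ℝ f x (0, 1)) x.2 := by
  have h1 : HasFDerivAt f (fderiv ℝ f x) x := (hf.differentiable (by simp) x).hasFDerivAt
  have h2 : HasDerivAt (fun s : ℝ => ((x.1, s) : P)) (0, 1) x.2 :=
    (hasDerivAt_const x.2 x.1).prodMk (hasDerivAt_id x.2)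
  exact h1.comp_hasDerivAt x.2 h2

theorem dx_eq {f : P → ℝ} (hf : Sm f) (x : P) : dx f x = fderiv ℝ f x (1, 0) := (hdx hf x).deriv

theorem dy_eq {f : P → ℝ} (hf : Sm f) (x : P) : dy f x = fderiv ℝ f x (0, 1) := (hdy hf x).deriv

theorem hx {f : P → ℝ} (hf : Sm f) (x : P) :
    HasDerivAt (fun s : ℝ => f (s, x.2)) (dx f x) x.1 := by rw [dx_eq hf]; exact hdx hf x

theorem hy {f : P → ℝ} (hf : Sm f) (x : P) :
    HasDerivAt (fun s : ℝ => f (x.1, s)) (dy f x) x.2 := by rw [dy_eq hf]; exact hdy hf x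

theorem sm_fderiv {f : P → ℝ} (hf : Sm f) (v : P) : Sm (fun x => fderiv ℝ f x v) := by
  have h1 : ContDiff ℝ (⊤ : ℕ∞) (fderiv ℝ f) := hf.fderiv_right (by norm_cast)
  exact h1.clm_apply contDiff_const

theorem sm_dx {f : P → ℝ} (hf : Sm f) : Sm (dx f) := by
  have : dx f = fun x => fderiv ℝ f x (1, 0) := funext (dx_eq hf)
  rw [this]
  exact sm_fderiv hf _

theorem sm_dy {f : P → ℝ} (hf : Sm f) : Sm (dy f) := by
  have : dy f = fun x => fderiv ℝ f x (0, 1) := funext (dy_eq hf)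
  rw [this]
  exact sm_fderiv hf _

theorem sm_lap {f : P → ℝ} (hf : Sm f) : Sm (lap f) := (sm_dx (sm_dx hf)).add (sm_dy (sm_dy hf))

theorem dx_mul {f g : P → ℝ} (hf : Sm f) (hg : Sm g) (x : P) :
    dx (fun y => f y * g y) x = dx f x * g x + f x * dx g x := ((hx hf x).mul (hx hg x)).deriv

theorem dy_mul {f g : P → ℝ} (hf : Sm f) (hg : Sm g) (x : P) :
    dy (fun y => f y * g y) x = dy f x * g x + f x * dy g x := ((hy hf x).mul (hy hg x)).deriv

theorem dx_add {f g : P → ℝ} (hf : Sm f) (hg : Sm g) (x : P) :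
    dx (fun y => f y + g y) x = dx f x + dx g x := ((hx hf x).add (hx hg x)).deriv

theorem dy_add {f g : P → ℝ} (hf : Sm f) (hg : Sm g) (x : P) :
    dy (fun y => f y + g y) x = dy f x + dy g x := ((hy hf x).add (hy hg x)).deriv

theorem lap_mul {f g : P → ℝ} (hf : Sm f) (hg : Sm g) (x : P) :
    lap (fun y => f y * g y) x =
      f x * lap g x + 2 * (dx f x * dx g x + dy f x * dy g x) + g x * lap f x := by
  have e1 : dx (fun y => f y * g y) = fun y => dx f y * g y + f y * dx g y := funext (dx_mul hf hg)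
  have e2 : dy (fun y => f y * g y) = fun y => dy f y * g y + f y * dy g y := funext (dy_mul hf hg)
  unfold lap
  rw [e1, e2, dx_add ((sm_dx hf).mul hg) (hf.mul (sm_dx hg)),
    dy_add ((sm_dy hf).mul hg) (hf.mul (sm_dy hg)), dx_mul (sm_dx hf) hg, dx_mul hf (sm_dx hg),
    dy_mul (sm_dy hf) hg, dy_mul hf (sm_dy hg)]
  ring

/-- the shift by half a period -/
def shf (x : P) : P := (x.1 + 1 / 2, x.2 + 1 / 2)

theorem sm_shift {f : P → ℝ} (hf : Sm f) : Sm (fun x => f (shf x)) := by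
  refine hf.comp ?_
  unfold shf
  fun_prop

theorem dx_shift {f : P → ℝ} (hf : Sm f) (x : P) : dx (fun x => f (shf x)) x = dx f (shf x) := by
  have h1 := hx hf (shf x)
  have h2 : HasDerivAt (fun s : ℝ => s + 1 / 2) 1 x.1 := (hasDerivAt_id x.1).add_const _
  have h3 := HasDerivAt.comp x.1 (h₂ := fun s : ℝ => f (s, (shf x).2)) (h := fun s : ℝ => s + 1 / 2)
    h1 h2
  rw [mul_one] at h3
  exact h3.deriv

theorem dy_shift {f : P → ℝ} (hf : Sm f) (x : P) : dy (fun x => f (shf x)) x = dy f (shf x) := by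
  have h1 := hy hf (shf x)
  have h2 : HasDerivAt (fun s : ℝ => s + 1 / 2) 1 x.2 := (hasDerivAt_id x.2).add_const _
  have h3 := HasDerivAt.comp x.2 (h₂ := fun s : ℝ => f ((shf x).1, s)) (h := fun s : ℝ => s + 1 / 2)
    h1 h2
  rw [mul_one] at h3
  exact h3.deriv

theorem lap_shift {f : P → ℝ} (hf : Sm f) (x : P) : lap (fun x => f (shf x)) x = lap f (shf x) := by
  have e1 : dx (fun x => f (shf x)) = fun x => dx f (shf x) := funext (dx_shift hf)
  have e2 : dy (fun x => f (shf x)) = fun x => dy f (shf x) := funext (dy_shift hf)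
  unfold lap
  rw [e1, e2, dx_shift (sm_dx hf), dy_shift (sm_dy hf)]

/-! ### The cutoff -/

theorem sm_rs : Sm rs := by
  unfold Sm rs
  fun_prop

theorem sm_chi : Sm chi := by
  unfold chi
  have h1 : Sm (fun x => (rs x - exp (-46)) / (exp (-44) - exp (-46))) :=
    (sm_rs.sub contDiff_const).div_const _
  exact contDiff_const.sub (Real.smoothTransition.contDiff.comp h1)

theorem exp_lt46 : exp (-46) < exp (-44) := exp_lt_exp.2 (by norm_num)

theorem chi_le (x : P) : chi x ≤ 1 := by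
  unfold chi
  linarith [Real.smoothTransition.nonneg ((rs x - exp (-46)) / (exp (-44) - exp (-46)))]

theorem chi_nonneg (x : P) : 0 ≤ chi x := by
  unfold chi
  linarith [Real.smoothTransition.le_one ((rs x - exp (-46)) / (exp (-44) - exp (-46)))]

theorem chi_zero {x : P} (h : exp (-44) ≤ rs x) : chi x = 0 := by
  unfold chi
  rw [Real.smoothTransition.one_of_one_le, sub_self]
  rw [one_le_div (by linarith [exp_lt46])]
  linarith

theorem chi_one {x : P} (h : rs x ≤ exp (-46)) : chi x = 1 := by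
  unfold chi
  rw [Real.smoothTransition.zero_of_nonpos, sub_zero]
  exact div_nonpos_of_nonpos_of_nonneg (by linarith) (by linarith [exp_lt46])

theorem dx_chi_zero {x : P} (h : rs x ≤ exp (-46)) : dx chi x = 0 := by
  have h1 : IsLocalMax (fun s : ℝ => chi (s, x.2)) x.1 :=
    Filter.Eventually.of_forall fun s => by
      show chi (s, x.2) ≤ chi (x.1, x.2)
      have : chi (x.1, x.2) = 1 := chi_one h
      rw [this]
      exact chi_le _
  exact h1.deriv_eq_zero

theorem dy_chi_zero {x : P} (h : rs x ≤ exp (-46)) : dy chi x = 0 := by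
  have h1 : IsLocalMax (fun s : ℝ => chi (x.1, s)) x.2 :=
    Filter.Eventually.of_forall fun s => by
      show chi (x.1, s) ≤ chi (x.1, x.2)
      have : chi (x.1, x.2) = 1 := chi_one h
      rw [this]
      exact chi_le _
  exact h1.deriv_eq_zero

/-! ### The discs -/

theorem Dc_mono {S T : ℝ} (h : S ≤ T) : Dc T ⊆ Dc S := fun x hx =>
  ⟨hx.1, hx.2.trans_le (exp_le_exp.2 (by linarith))⟩

theorem meas_rs : Measurable rs := sm_rs.continuous.measurable

theorem meas_Dc (S : ℝ) : MeasurableSet (Dc S) :=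
  (measurableSet_lt measurable_const meas_rs).inter (measurableSet_lt meas_rs measurable_const)

theorem abs_le_of_Dc {S : ℝ} {x : P} (hx : x ∈ Dc S) : |x.1| < exp (-S) ∧ |x.2| < exp (-S) := by
  have h := hx.2
  have e : exp (-2 * S) = exp (-S) ^ 2 := by
    rw [← exp_nat_mul]
    congr 1
    push_cast
    ring
  rw [e] at h
  unfold rs at h
  constructor
  · exact abs_lt_of_sq_lt_sq (by nlinarith [sq_nonneg x.2]) (exp_pos _).le
  · exact abs_lt_of_sq_lt_sq (by nlinarith [sq_nonneg x.1]) (exp_pos _).le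

theorem exp_m1 : exp (-1) < 1 / 2 := by
  have h1 : (2 : ℝ) < exp 1 := by
    have := Real.exp_one_gt_d9
    linarith
  rw [exp_neg, one_div]
  exact inv_strictAnti₀ (by norm_num) h1

theorem fr_shf {x : P} (hx : x ∈ Dc 1) : fr (shf x) = x := by
  obtain ⟨h1, h2⟩ := abs_le_of_Dc hx
  rw [abs_lt] at h1 h2
  have h3 := exp_m1
  unfold fr shf
  ext
  · simp only
    rw [Int.fract_eq_self.2 ⟨by linarith, by linarith⟩]
    ring
  · simp only
    rw [Int.fract_eq_self.2 ⟨by linarith, by linarith⟩]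
    ring

theorem Dc_box {x : P} (hx : x ∈ Dc 21) : x ∈ Icc ((-1 : ℝ), (-1 : ℝ)) (1, 1) := by
  obtain ⟨h1, h2⟩ := abs_le_of_Dc hx
  have h3 : exp (-21) < 1 := by
    rw [exp_lt_one_iff]
    norm_num
  rw [abs_lt] at h1 h2
  exact ⟨⟨by linarith, by linarith⟩, ⟨by linarith, by linarith⟩⟩

theorem fin_Dc : volume (Dc 21) < ⊤ :=
  (measure_mono fun _ hx => Dc_box hx).trans_lt isCompact_Icc.measure_lt_top

theorem ls_gt {S : ℝ} {x : P} (hx : x ∈ Dc S) : S < ls x := by
  unfold ls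
  have h1 := log_lt_log hx.1 hx.2
  rw [log_exp] at h1
  linarith

/-! ### The drift -/

theorem eta_eq {s : ℝ} (h : 2 < s) : etaT s = eta0 s ∧ deriv etaT s = deriv eta0 s := by
  have h1 : ∀ t : ℝ, 2 < t → etaT t = eta0 t := by
    intro t ht
    unfold etaT eta0
    rw [Real.smoothTransition.one_of_one_le (by linarith), mul_one]
  refine ⟨h1 s h, Filter.EventuallyEq.deriv_eq ?_⟩
  filter_upwards [Ioi_mem_nhds h] with t ht
  exact h1 t ht

theorem bb_eq {x : P} (hx : x ∈ Dc 21) : bb etaT x = bb eta0 x := by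
  have h1 := ls_gt hx
  obtain ⟨h2, h3⟩ := eta_eq (s := ls x) (by linarith)
  unfold bb
  rw [h2, h3]

theorem deriv_eta0 {s : ℝ} (h : s ≠ 0) : deriv eta0 s = (3 / 2) / s ^ 2 := by
  have h1 : HasDerivAt (fun t : ℝ => -(3 / 2) / t) ((0 * s - -(3 / 2) * 1) / s ^ 2) s :=
    (hasDerivAt_const s (-(3 / 2 : ℝ))).div (hasDerivAt_id s) h
  have h2 := h1.deriv
  have h3 : deriv eta0 s = (0 * s - -(3 / 2) * 1) / s ^ 2 := h2
  rw [h3]
  ring

theorem meas_ls : Measurable ls := by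
  unfold ls
  exact (meas_rs.log).const_mul _

theorem meas_eta0 : Measurable eta0 := by
  unfold eta0
  exact measurable_const.div measurable_id

theorem meas_bb : Measurable (bb eta0) := by
  unfold bb
  have h1 := meas_eta0.comp meas_ls
  have h2 := (measurable_deriv eta0).comp meas_ls
  have h3 := meas_rs
  simp only [Function.comp_def] at h1 h2
  fun_prop

/-- the bound for the drift away from the origin -/
theorem bb_bound {x : P} (hx : x ∈ Dc 21) (h46 : exp (-46) ≤ rs x) :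
    |(bb eta0 x).1| ≤ 4 / exp (-46) ^ 2 ∧ |(bb eta0 x).2| ≤ 4 / exp (-46) ^ 2 := by
  have hs := ls_gt hx
  obtain ⟨h1, h2⟩ := Dc_box hx
  have hx1 : |x.1| ≤ 1 := abs_le.2 ⟨h1.1, h2.1⟩
  have hx2 : |x.2| ≤ 1 := abs_le.2 ⟨h1.2, h2.2⟩
  have he : |eta0 (ls x)| ≤ 1 := by
    unfold eta0
    rw [abs_div, div_le_one (by rw [abs_of_pos (by linarith)]; linarith), abs_of_pos (a := ls x) (by linarith)]
    norm_num
    linarith
  have hd : |deriv eta0 (ls x)| ≤ 1 := by
    rw [deriv_eta0 (by linarith), abs_of_pos (by positivity), div_le_one (by positivity)]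
    nlinarith
  have hq : exp (-46) ^ 2 ≤ rs x ^ 2 := by gcongr
  have hq0 : 0 < exp (-46) ^ 2 := by positivity
  have key : ∀ u v : ℝ, |u| ≤ 1 → |v| ≤ 1 → ∀ e d : ℝ, |e| ≤ 1 → |d| ≤ 1 → ∀ w : ℝ, |w| ≤ 1 → ∀ z : ℝ, |z| ≤ 1 →
      |(-2 * e * (u ^ 2 - v ^ 2) * w + d * (2 * u * v) * z)| ≤ 4 := by
    intro u v hu hv e d he hd w hw z hz
    have hu2 : u ^ 2 ≤ 1 := by rw [← sq_abs]; nlinarith [abs_nonneg u]
    have hv2 : v ^ 2 ≤ 1 := by rw [← sq_abs]; nlinarith [abs_nonneg v]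
    have h1 : |u ^ 2 - v ^ 2| ≤ 1 := abs_le.2 ⟨by nlinarith [sq_nonneg u], by nlinarith [sq_nonneg v]⟩
    have h2 : |e * (u ^ 2 - v ^ 2) * w| ≤ 1 := by
      rw [abs_mul, abs_mul]
      have : |e| * |u ^ 2 - v ^ 2| ≤ 1 := mul_le_one₀ he (abs_nonneg _) h1
      exact mul_le_one₀ this (abs_nonneg _) hw
    have h3 : |d * (u * v) * z| ≤ 1 := by
      rw [abs_mul, abs_mul, abs_mul u v]
      have h5 : |u| * |v| ≤ 1 := mul_le_one₀ hu (abs_nonneg _) hv
      have : |d| * (|u| * |v|) ≤ 1 := mul_le_one₀ hd (by positivity) h5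
      exact mul_le_one₀ this (abs_nonneg _) hz
    rw [abs_le] at h2 h3 ⊢
    constructor <;> nlinarith
  constructor
  · unfold bb
    simp only
    rw [abs_div, abs_of_pos (a := rs x ^ 2) (by have := hx.1; positivity)]
    exact div_le_div₀ (by norm_num) (key x.1 x.2 hx1 hx2 _ _ he hd x.1 hx1 x.2 hx2) hq0 hq
  · unfold bb
    simp only
    rw [abs_div, abs_of_pos (a := rs x ^ 2) (by have := hx.1; positivity)]
    refine div_le_div₀ (by norm_num) ?_ hq0 hq
    have := key x.1 x.2 hx1 hx2 _ (-deriv eta0 (ls x)) he (by rwa [abs_neg]) x.2 hx2 x.1 hx1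
    refine le_trans (le_of_eq ?_) this
    congr 1
    ring

/-! ### Cauchy–Schwarz -/

theorem cs {μ : Measure P} {f g : P → ℝ} (hf : Integrable (fun x => f x ^ 2) μ)
    (hg : Integrable (fun x => g x ^ 2) μ) (hfg : Integrable (fun x => f x * g x) μ) :
    (∫ x, f x * g x ∂μ) ^ 2 ≤ (∫ x, f x ^ 2 ∂μ) * ∫ x, g x ^ 2 ∂μ := by
  have h : ∀ t : ℝ, 0 ≤ (∫ x, f x ^ 2 ∂μ) * (t * t) + (2 * ∫ x, f x * g x ∂μ) * t + ∫ x, g x ^ 2 ∂μ := by
    intro t
    have h1 : 0 ≤ ∫ x, (t * f x + g x) ^ 2 ∂μ := integral_nonneg fun x => sq_nonneg _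
    have h2 : ∫ x, (t * f x + g x) ^ 2 ∂μ =
        (∫ x, f x ^ 2 ∂μ) * (t * t) + (2 * ∫ x, f x * g x ∂μ) * t + ∫ x, g x ^ 2 ∂μ := by
      have e : ∀ x, (t * f x + g x) ^ 2 = (t * t) * f x ^ 2 + (2 * t) * (f x * g x) + g x ^ 2 := by
        intro x; ring
      simp only [e]
      have i1 : Integrable (fun x => (t * t) * f x ^ 2) μ := hf.const_mul _
      have i2 : Integrable (fun x => (2 * t) * (f x * g x)) μ := hfg.const_mul _
      have i3 : Integrable (fun x => (t * t) * f x ^ 2 + (2 * t) * (f x * g x)) μ := i1.add i2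
      rw [integral_add i3 hg, integral_add i1 i2, integral_const_mul, integral_const_mul]
      ring
    linarith
  have h3 := discrim_le_zero h
  unfold discrim at h3
  nlinarith

theorem int_mul {μ : Measure P} {f g : P → ℝ} (mf : AEStronglyMeasurable f μ)
    (mg : AEStronglyMeasurable g μ) (hf : Integrable (fun x => f x ^ 2) μ)
    (hg : Integrable (fun x => g x ^ 2) μ) : Integrable (fun x => f x * g x) μ := by
  refine Integrable.mono' (hf.add hg) (mf.mul mg) (Eventually.of_forall fun x => ?_)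
  rw [Real.norm_eq_abs, abs_mul]
  have h1 : |f x| ^ 2 = f x ^ 2 := sq_abs _
  have h2 : |g x| ^ 2 = g x ^ 2 := sq_abs _
  show |f x| * |g x| ≤ f x ^ 2 + g x ^ 2
  nlinarith [sq_nonneg (|f x| - |g x|), mul_nonneg (abs_nonneg (f x)) (abs_nonneg (g x))]

/-! ### The main computation -/

/-- the terms without second derivatives of `φ` -/
def EF (φ : P → ℝ) (x : P) : ℝ :=
  chi x * φ x + 2 * (dx chi x * dx φ x + dy chi x * dy φ x) + φ x * lap chi x +
    φ x * ((bb eta0 x).1 * dx chi x + (bb eta0 x).2 * dy chi x)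

theorem chi_LL {φ : P → ℝ} (hφ : Sm φ) (x : P) :
    chi x * (φ x - LL (bb eta0) φ x) = EF φ x - LL (bb eta0) (fun y => chi y * φ y) x := by
  unfold LL EF
  rw [lap_mul sm_chi hφ, dx_mul sm_chi hφ, dy_mul sm_chi hφ]
  ring

theorem bound_box {f : P → ℝ} (hf : Sm f) : ∃ M : ℝ, 0 ≤ M ∧ ∀ x ∈ Dc 21, |f x| ≤ M := by
  obtain ⟨M, hM⟩ := (isCompact_Icc (a := ((-1 : ℝ), (-1 : ℝ))) (b := (1, 1))).exists_bound_of_continuousOn
    (f := f) hf.continuous.continuousOn
  refine ⟨max M 0, le_max_right _ _, fun x hx => ?_⟩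
  have := hM x (Dc_box hx)
  rw [Real.norm_eq_abs] at this
  exact this.trans (le_max_left _ _)

theorem EF_bound : ∃ K : ℝ, 0 ≤ K ∧ ∀ φ : P → ℝ, ∀ x ∈ Dc 21,
    |EF φ x| ≤ K * (|φ x| + |dx φ x| + |dy φ x|) := by
  obtain ⟨M1, hM1, h1⟩ := bound_box (sm_dx sm_chi)
  obtain ⟨M2, hM2, h2⟩ := bound_box (sm_dy sm_chi)
  obtain ⟨M3, hM3, h3⟩ := bound_box (sm_lap sm_chi)
  obtain ⟨B, hB⟩ : ∃ B : ℝ, B = 4 / exp (-46) ^ 2 := ⟨_, rfl⟩
  have hB0 : 0 ≤ B := by rw [hB]; positivity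
  refine ⟨1 + 2 * M1 + 2 * M2 + M3 + B * M1 + B * M2, by positivity, fun φ x hx => ?_⟩
  have a1 := h1 x hx
  have a2 := h2 x hx
  have a3 := h3 x hx
  have b1 : |(bb eta0 x).1 * dx chi x| ≤ B * M1 := by
    rcases le_total (rs x) (exp (-46)) with h | h
    · rw [dx_chi_zero h, mul_zero, abs_zero]
      positivity
    · rw [abs_mul]
      exact mul_le_mul (hB ▸ (bb_bound hx h).1) a1 (abs_nonneg _) hB0
  have b2 : |(bb eta0 x).2 * dy chi x| ≤ B * M2 := by
    rcases le_total (rs x) (exp (-46)) with h | h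
    · rw [dy_chi_zero h, mul_zero, abs_zero]
      positivity
    · rw [abs_mul]
      exact mul_le_mul (hB ▸ (bb_bound hx h).2) a2 (abs_nonneg _) hB0
  have c0 : |chi x| ≤ 1 := abs_le.2 ⟨by linarith [chi_nonneg x], chi_le x⟩
  have t1 : |chi x * φ x| ≤ 1 * |φ x| := by
    rw [abs_mul]; exact mul_le_mul_of_nonneg_right c0 (abs_nonneg _)
  have t2 : |dx chi x * dx φ x| ≤ M1 * |dx φ x| := by
    rw [abs_mul]; exact mul_le_mul_of_nonneg_right a1 (abs_nonneg _)
  have t3 : |dy chi x * dy φ x| ≤ M2 * |dy φ x| := by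
    rw [abs_mul]; exact mul_le_mul_of_nonneg_right a2 (abs_nonneg _)
  have t4 : |φ x * lap chi x| ≤ M3 * |φ x| := by
    rw [abs_mul, mul_comm]; exact mul_le_mul_of_nonneg_right a3 (abs_nonneg _)
  have t5 : |φ x * ((bb eta0 x).1 * dx chi x + (bb eta0 x).2 * dy chi x)| ≤
      (B * M1 + B * M2) * |φ x| := by
    rw [abs_mul, mul_comm]
    exact mul_le_mul_of_nonneg_right ((abs_add_le _ _).trans (add_le_add b1 b2)) (abs_nonneg _)
  have t6 : |EF φ x| ≤ |chi x * φ x| + 2 * (|dx chi x * dx φ x| + |dy chi x * dy φ x|) +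
      |φ x * lap chi x| + |φ x * ((bb eta0 x).1 * dx chi x + (bb eta0 x).2 * dy chi x)| := by
    unfold EF
    refine (abs_add_le _ _).trans (add_le_add ((abs_add_le _ _).trans (add_le_add
      ((abs_add_le _ _).trans (add_le_add le_rfl ?_)) le_rfl)) le_rfl)
    rw [abs_mul, abs_two]
    exact mul_le_mul_of_nonneg_left (abs_add_le _ _) (by norm_num)
  have p0 := abs_nonneg (φ x)
  have p1 := abs_nonneg (dx φ x)
  have p2 := abs_nonneg (dy φ x)
  refine t6.trans ?_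
  have q1 : 0 ≤ (2 * M1 + 2 * M2) * |φ x| := by positivity
  have q2 : 0 ≤ (1 + 2 * M2 + M3 + B * M1 + B * M2) * |dx φ x| := by positivity
  have q3 : 0 ≤ (1 + 2 * M1 + M3 + B * M1 + B * M2) * |dy φ x| := by positivity
  nlinarith

theorem meas_U0c : Measurable U0c := by
  unfold U0c
  have h1 := meas_rs
  have h2 := meas_ls
  fun_prop

theorem meas_EF {φ : P → ℝ} (hφ : Sm φ) : Measurable (EF φ) := by
  unfold EF
  have h1 := sm_chi.continuous.measurable
  have h2 := (sm_dx sm_chi).continuous.measurable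
  have h3 := (sm_dy sm_chi).continuous.measurable
  have h4 := (sm_lap sm_chi).continuous.measurable
  have h5 := hφ.continuous.measurable
  have h6 := (sm_dx hφ).continuous.measurable
  have h7 := (sm_dy hφ).continuous.measurable
  exact (((h1.mul h5).add (((h2.mul h6).add (h3.mul h7)).const_mul 2)).add (h5.mul h4)).add
    (h5.mul ((meas_bb.fst.mul h2).add (meas_bb.snd.mul h3)))

theorem meas_LL {φ : P → ℝ} (hφ : Sm φ) : Measurable (LL (bb eta0) φ) := by
  unfold LL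
  have h5 := (sm_lap hφ).continuous.measurable
  have h6 := (sm_dx hφ).continuous.measurable
  have h7 := (sm_dy hφ).continuous.measurable
  exact (h5.add (meas_bb.fst.mul h6)).add (meas_bb.snd.mul h7)

theorem EF_sq {φ : P → ℝ} (hφ : Sm φ) : IntegrableOn (fun x => EF φ x ^ 2) (Dc 21) := by
  obtain ⟨K, hK, h⟩ := EF_bound
  obtain ⟨M1, hM1, h1⟩ := bound_box hφ
  obtain ⟨M2, hM2, h2⟩ := bound_box (sm_dx hφ)
  obtain ⟨M3, hM3, h3⟩ := bound_box (sm_dy hφ)
  refine Measure.integrableOn_of_bounded (M := (K * (M1 + M2 + M3)) ^ 2) fin_Dc.ne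
    ((meas_EF hφ).pow_const 2).aestronglyMeasurable ?_
  filter_upwards [ae_restrict_mem (meas_Dc 21)] with x hx
  rw [Real.norm_eq_abs, abs_of_nonneg (sq_nonneg _), ← sq_abs]
  have h4 : |EF φ x| ≤ K * (M1 + M2 + M3) :=
    (h φ x hx).trans (mul_le_mul_of_nonneg_left (by linarith [h1 x hx, h2 x hx, h3 x hx]) hK)
  gcongr

theorem LL_sq (hb : IntegrableOn (fun x => ‖bb etaT x‖ ^ 2) (Dc 1)) {φ : P → ℝ} (hφ : Sm φ) :
    IntegrableOn (fun x => LL (bb eta0) φ x ^ 2) (Dc 21) := by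
  obtain ⟨M1, hM1, h1⟩ := bound_box (sm_lap hφ)
  obtain ⟨M2, hM2, h2⟩ := bound_box (sm_dx hφ)
  obtain ⟨M3, hM3, h3⟩ := bound_box (sm_dy hφ)
  have hb1 : IntegrableOn (fun x => ‖bb eta0 x‖ ^ 2) (Dc 21) := by
    refine (hb.mono_set (Dc_mono (by norm_num))).congr_fun (fun x hx => ?_) (meas_Dc 21)
    simp only [bb_eq hx]
  have hc : IntegrableOn (fun _ : P => 3 * M1 ^ 2) (Dc 21) := by
    refine integrableOn_const ?_ ?_
    · exact fin_Dc.ne
    · exact enorm_ne_top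
  refine Integrable.mono' (hc.add (hb1.const_mul (3 * M2 ^ 2 + 3 * M3 ^ 2)))
    ((meas_LL hφ).pow_const 2).aestronglyMeasurable ?_
  filter_upwards [ae_restrict_mem (meas_Dc 21)] with x hx
  rw [Real.norm_eq_abs, abs_of_nonneg (sq_nonneg _)]
  show LL (bb eta0) φ x ^ 2 ≤ 3 * M1 ^ 2 + (3 * M2 ^ 2 + 3 * M3 ^ 2) * ‖bb eta0 x‖ ^ 2
  have e1 : |(bb eta0 x).1| ≤ ‖bb eta0 x‖ := by rw [← Real.norm_eq_abs]; exact norm_fst_le _
  have e2 : |(bb eta0 x).2| ≤ ‖bb eta0 x‖ := by rw [← Real.norm_eq_abs]; exact norm_snd_le _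
  have s1 : lap φ x ^ 2 ≤ M1 ^ 2 := by
    rw [← sq_abs]; exact pow_le_pow_left₀ (abs_nonneg _) (h1 x hx) 2
  have s2 : ((bb eta0 x).1 * dx φ x) ^ 2 ≤ M2 ^ 2 * ‖bb eta0 x‖ ^ 2 := by
    rw [← sq_abs, abs_mul, mul_pow, mul_comm]
    exact mul_le_mul (pow_le_pow_left₀ (abs_nonneg _) (h2 x hx) 2)
      (pow_le_pow_left₀ (abs_nonneg _) e1 2) (by positivity) (by positivity)
  have s3 : ((bb eta0 x).2 * dy φ x) ^ 2 ≤ M3 ^ 2 * ‖bb eta0 x‖ ^ 2 := by
    rw [← sq_abs, abs_mul, mul_pow, mul_comm]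
    exact mul_le_mul (pow_le_pow_left₀ (abs_nonneg _) (h3 x hx) 2)
      (pow_le_pow_left₀ (abs_nonneg _) e2 2) (by positivity) (by positivity)
  unfold LL
  nlinarith [sq_nonneg (lap φ x - (bb eta0 x).1 * dx φ x), sq_nonneg (lap φ x - (bb eta0 x).2 * dy φ x),
    sq_nonneg ((bb eta0 x).1 * dx φ x - (bb eta0 x).2 * dy φ x)]

theorem main_id (h : S_ext) (h1 : S_tra) (h2 : S_sqi) (h4 : S_bpa) {W : P → ℝ} (hW : Loc W)
    {ψ : P → ℝ} (hψ : SP ψ) :
    ∫ x in Q, UP W x * (ψ x - LL bP ψ x) =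
      ∫ x in Dc 21, (U0c x - W x) * EF (fun y => ψ (shf y)) x := by
  have hφ : Sm (fun y => ψ (shf y)) := sm_shift hψ.1
  have hf0 : ∀ x, rs x = 0 ∨ exp (-2) ≤ rs x → chi x * (U0c x - W x) = 0 := by
    rintro x (hx | hx)
    · have hx0 : x = 0 := by
        unfold rs at hx
        have a1 : x.1 = 0 := by nlinarith [sq_nonneg x.1, sq_nonneg x.2]
        have a2 : x.2 = 0 := by nlinarith [sq_nonneg x.1, sq_nonneg x.2]
        exact Prod.ext a1 a2
      have hW0 : W 0 = 0 := by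
        have := hW.odd 0
        rw [neg_zero] at this
        linarith
      have hU0 : U0c 0 = 0 := by
        unfold U0c rs
        simp
      rw [hx0, hW0, hU0, sub_zero, mul_zero]
    · rw [chi_zero (le_trans (exp_le_exp.2 (by norm_num)) hx), zero_mul]
  have e1 := (h1 (fun x => chi x * (U0c x - W x)) (fun x => ψ x - LL bP ψ x) hf0).1
  have e2 : ∫ x in Q, UP W x * (ψ x - LL bP ψ x) = ∫ x in Dc 1, chi x * (U0c x - W x) *
      (ψ (x.1 + 1 / 2, x.2 + 1 / 2) - LL bP ψ (x.1 + 1 / 2, x.2 + 1 / 2)) := e1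
  rw [e2, setIntegral_eq_of_subset_of_forall_sdiff_eq_zero (meas_Dc 1) (Dc_mono (S := 1) (T := 21) (by norm_num))]
  swap
  · intro x hx
    have : exp (-44) ≤ rs x := by
      by_contra hcon
      push Not at hcon
      exact hx.2 ⟨hx.1.1, hcon.trans_le (exp_le_exp.2 (by norm_num))⟩
    rw [chi_zero this, zero_mul, zero_mul]
  have e3 : ∫ x in Dc 21, chi x * (U0c x - W x) *
      (ψ (x.1 + 1 / 2, x.2 + 1 / 2) - LL bP ψ (x.1 + 1 / 2, x.2 + 1 / 2)) =
      ∫ x in Dc 21, ((U0c x - W x) * EF (fun y => ψ (shf y)) x -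
        (U0c x - W x) * LL (bb eta0) (fun y => chi y * ψ (shf y)) x) := by
    refine setIntegral_congr_fun (meas_Dc 21) fun x hx => ?_
    show chi x * (U0c x - W x) * (ψ (shf x) - LL bP ψ (shf x)) = _
    have hbP : bP (shf x) = bb eta0 x := by
      unfold bP
      rw [fr_shf (Dc_mono (by norm_num) hx), bb_eq hx]
    have hLL : LL bP ψ (shf x) = LL (bb eta0) (fun y => ψ (shf y)) x := by
      unfold LL
      rw [hbP, lap_shift hψ.1, dx_shift hψ.1, dy_shift hψ.1]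
    rw [hLL]
    have := chi_LL hφ x
    calc chi x * (U0c x - W x) * (ψ (shf x) - LL (bb eta0) (fun y => ψ (shf y)) x)
        = (U0c x - W x) * (chi x * (ψ (shf x) - LL (bb eta0) (fun y => ψ (shf y)) x)) := by ring
      _ = _ := by rw [this]; ring
  rw [e3]
  have mU : AEStronglyMeasurable (fun x => U0c x - W x) (volume.restrict (Dc 21)) :=
    (meas_U0c.sub hW.meas).aestronglyMeasurable
  have hU2 := h2.2 W hW.meas hW.int
  have hχφ : Sm (fun y => chi y * ψ (shf y)) := sm_chi.mul hφ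
  rw [integral_sub (int_mul mU (meas_EF hφ).aestronglyMeasurable hU2 (EF_sq hφ))
    (int_mul mU (meas_LL hχφ).aestronglyMeasurable hU2 (LL_sq h4.2.2.2.2 hχφ))]
  have e4 := h W hW (fun y => chi y * ψ (shf y)) hχφ ⟨exp (-44), exp_lt_exp.2 (by norm_num), by
    intro x hx
    by_contra hcon
    push Not at hcon
    exact hx (by simp only [chi_zero hcon.le, zero_mul])⟩
  rw [e4, sub_zero]

theorem meas_fr : Measurable fr := by
  unfold fr
  exact ((measurable_fst.fract).sub_const _).prodMk ((measurable_snd.fract).sub_const _)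

/-- comparison of the integral over the disc and over the square -/
theorem disc_le (h1 : S_tra) {G : P → ℝ} (hG : Continuous G) (hG0 : ∀ x, 0 ≤ G x) :
    ∫ x in Dc 21, G (shf x) ≤ ∫ x in Q, G x := by
  classical
  have hGQ : IntegrableOn G Q := by
    refine (hG.continuousOn.integrableOn_compact
      (isCompact_Icc (a := ((0 : ℝ), (0 : ℝ))) (b := (1, 1)))).mono_set ?_
    rintro ⟨a, b⟩ ⟨ha, hb⟩
    exact ⟨⟨ha.1, hb.1⟩, ⟨ha.2.le, hb.2.le⟩⟩
  have e1 := (h1 ((Dc 21).indicator fun _ => (1 : ℝ)) G (by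
    rintro x (hx | hx)
    · refine indicator_of_notMem ?_ _
      intro h
      exact h.1.ne' hx
    · refine indicator_of_notMem ?_ _
      intro h
      have : exp (-2 * 21) < exp (-2 : ℝ) := exp_lt_exp.2 (by norm_num)
      linarith [h.2])).1
  have e2 : ∫ x in Dc 1, (Dc 21).indicator (fun _ => (1 : ℝ)) x * G (x.1 + 1 / 2, x.2 + 1 / 2) =
      ∫ x in Dc 21, G (shf x) := by
    have e3 : ∀ x : P, (Dc 21).indicator (fun _ => (1 : ℝ)) x * G (x.1 + 1 / 2, x.2 + 1 / 2) =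
        (Dc 21).indicator (fun x => G (shf x)) x := by
      intro x
      by_cases hx : x ∈ Dc 21
      · rw [indicator_of_mem hx, indicator_of_mem hx, one_mul]
        rfl
      · rw [indicator_of_notMem hx, indicator_of_notMem hx, zero_mul]
    simp only [e3]
    rw [setIntegral_indicator (meas_Dc 21), inter_eq_right.2 (Dc_mono (by norm_num))]
  rw [← e2, ← e1]
  have hind : ∀ x : P, (Dc 21).indicator (fun _ => (1 : ℝ)) x ≤ 1 := fun x => by
    by_cases hx : x ∈ Dc 21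
    · rw [indicator_of_mem hx]
    · rw [indicator_of_notMem hx]
      norm_num
  have hind0 : ∀ x : P, 0 ≤ (Dc 21).indicator (fun _ => (1 : ℝ)) x := fun x =>
    indicator_nonneg (fun _ _ => zero_le_one) x
  have hle : ∀ x : P, (Dc 21).indicator (fun _ => (1 : ℝ)) (fr x) * G x ≤ G x := fun x => by
    have := mul_le_mul_of_nonneg_right (hind (fr x)) (hG0 x)
    rwa [one_mul] at this
  refine integral_mono_of_nonneg (Eventually.of_forall fun x => mul_nonneg (hind0 _) (hG0 x)) hGQ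
    (Eventually.of_forall hle)

theorem fun1 (h : S_ext) (h1 : S_tra) (h2 : S_sqi) (_h3 : S_upm) (h4 : S_bpa) : S_fun := by
  intro W hW
  obtain ⟨K, hK, hKb⟩ := EF_bound
  refine ⟨(∫ x in Dc 21, (U0c x - W x) ^ 2) * (3 * K ^ 2), fun ψ hψ => ?_⟩
  have hφ : Sm (fun y => ψ (shf y)) := sm_shift hψ.1
  have mU : AEStronglyMeasurable (fun x => U0c x - W x) (volume.restrict (Dc 21)) :=
    (meas_U0c.sub hW.meas).aestronglyMeasurable
  have hU2 := h2.2 W hW.meas hW.int
  rw [main_id h h1 h2 h4 hW hψ]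
  refine (cs hU2 (EF_sq hφ) (int_mul mU (meas_EF hφ).aestronglyMeasurable hU2 (EF_sq hφ))).trans ?_
  rw [mul_assoc]
  refine mul_le_mul_of_nonneg_left ?_ (integral_nonneg fun x => sq_nonneg _)
  have hGc : Continuous (fun x => ψ x ^ 2 + dx ψ x ^ 2 + dy ψ x ^ 2) := by
    have c1 := hψ.1.continuous
    have c2 := (sm_dx hψ.1).continuous
    have c3 := (sm_dy hψ.1).continuous
    fun_prop
  have hsh : Continuous shf := by
    unfold shf
    fun_prop
  have hGi : IntegrableOn (fun x => 3 * K ^ 2 * (ψ (shf x) ^ 2 + dx ψ (shf x) ^ 2 + dy ψ (shf x) ^ 2))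
      (Dc 21) := by
    have c4 : Continuous (fun x => 3 * K ^ 2 * (ψ (shf x) ^ 2 + dx ψ (shf x) ^ 2 + dy ψ (shf x) ^ 2)) :=
      continuous_const.mul (hGc.comp hsh)
    exact (c4.continuousOn.integrableOn_compact
      (isCompact_Icc (a := ((-1 : ℝ), (-1 : ℝ))) (b := (1, 1)))).mono_set fun x hx => Dc_box hx
  calc ∫ x in Dc 21, EF (fun y => ψ (shf y)) x ^ 2
      ≤ ∫ x in Dc 21, 3 * K ^ 2 * (ψ (shf x) ^ 2 + dx ψ (shf x) ^ 2 + dy ψ (shf x) ^ 2) := by
        refine setIntegral_mono_on (EF_sq hφ) hGi (meas_Dc 21) fun x hx => ?_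
        have b1 := hKb (fun y => ψ (shf y)) x hx
        rw [dx_shift hψ.1, dy_shift hψ.1] at b1
        rw [← sq_abs]
        refine (pow_le_pow_left₀ (abs_nonneg _) b1 2).trans ?_
        rw [mul_pow, ← sq_abs (ψ (shf x)), ← sq_abs (dx ψ (shf x)), ← sq_abs (dy ψ (shf x))]
        have : (|ψ (shf x)| + |dx ψ (shf x)| + |dy ψ (shf x)|) ^ 2 ≤
            3 * (|ψ (shf x)| ^ 2 + |dx ψ (shf x)| ^ 2 + |dy ψ (shf x)| ^ 2) := by
          nlinarith [sq_nonneg (|ψ (shf x)| - |dx ψ (shf x)|), sq_nonneg (|ψ (shf x)| - |dy ψ (shf x)|),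
            sq_nonneg (|dx ψ (shf x)| - |dy ψ (shf x)|)]
        calc K ^ 2 * (|ψ (shf x)| + |dx ψ (shf x)| + |dy ψ (shf x)|) ^ 2
            ≤ K ^ 2 * (3 * (|ψ (shf x)| ^ 2 + |dx ψ (shf x)| ^ 2 + |dy ψ (shf x)| ^ 2)) :=
              mul_le_mul_of_nonneg_left this (sq_nonneg K)
          _ = _ := by ring
    _ = 3 * K ^ 2 * ∫ x in Dc 21, (ψ (shf x) ^ 2 + dx ψ (shf x) ^ 2 + dy ψ (shf x) ^ 2) :=
        integral_const_mul _ _
    _ ≤ 3 * K ^ 2 * ∫ x in Q, (ψ x ^ 2 + dx ψ x ^ 2 + dy ψ x ^ 2) := by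
        refine mul_le_mul_of_nonneg_left ?_ (by positivity)
        exact disc_le h1 hGc fun x => by positivity

end Pool.Agent.Q110.ND
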