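import Pool.Agent.Q61.ND.Stm

/-! Job INT of the project ND: integrability in space and time. -/

set_option autoImplicit false

open MeasureTheory Set Filter Topology Real

noncomputable section

namespace Pool.Agent.Q110.ND

open Pool.Agent.Q61.AD (P Q Per dt dx dy lap Tst D)
open Pool.Agent.Q61.ND

theorem integrable_smul_b {b : P → P} {U : P → ℝ} (hb : Measurable b)
    (hb2 : IntegrableOn (fun x => ‖b x‖ ^ 2) Q) (hU : Measurable U)
    (hU2 : IntegrableOn (fun x => U x ^ 2) Q) : IntegrableOn (fun x => U x • b x) Q := by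
  refine Integrable.mono' (hU2.add hb2) (hU.smul hb).aestronglyMeasurable ?_
  refine Eventually.of_forall fun x => ?_
  rw [norm_smul, Real.norm_eq_abs]
  have h1 : |U x| ^ 2 = U x ^ 2 := sq_abs _
  have h2 : 0 ≤ |U x| := abs_nonneg _
  have h3 : 0 ≤ ‖b x‖ := norm_nonneg _
  show |U x| * ‖b x‖ ≤ U x ^ 2 + ‖b x‖ ^ 2
  nlinarith [sq_nonneg (|U x| - ‖b x‖), mul_nonneg h2 h3]

theorem int1 : S_int := by
  intro b U hb hb2 hU hU2 T
  have h1 : IntegrableOn (fun t : ℝ => exp t) (Ioo 0 T) :=
    (continuous_exp.integrableOn_Icc (a := 0) (b := T)).mono_set Ioo_subset_Icc_self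
  have h2 := Integrable.smul_prod h1 (integrable_smul_b hb hb2 hU hU2)
  refine h2.congr (Eventually.of_forall fun q => ?_)
  simp only [smul_smul]

end Pool.Agent.Q110.ND
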